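import Pool.Agent.Q255.EB.Stm

/-!
# Corner sets: the deviation for all quantile vectors and all lengths at once

`S_CORNER` of the project EB (helper255) from the moments `S_MOM`, the chaining `S_CHAIN` and the
quantile weights `S_PSI`.
-/

set_option autoImplicit false

namespace Pool.Agent.Q184.EB

open Finset Pool.Agent.Q255.EB
open Q282LT (avg zbox ZPer card_zbox)
open Q285MD (wm Dat G avg_mono avg_add avg_smul avg_const avg_sum avg_dvd avg_abs)

/-! ### auxiliary facts -/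

theorem prod_sub_le {ι : Type*} (S : Finset ι) (a b : ι → ℝ) (hb : ∀ i ∈ S, 0 ≤ b i)
    (hab : ∀ i ∈ S, b i ≤ a i) (ha : ∀ i ∈ S, a i ≤ 1) :
    ∏ i ∈ S, a i - ∏ i ∈ S, b i ≤ ∑ i ∈ S, (a i - b i) := by
  classical
  induction S using Finset.induction_on with
  | empty => simp
  | insert i S hi ih =>
    rw [prod_insert hi, prod_insert hi, sum_insert hi]
    have hb' : ∀ i ∈ S, 0 ≤ b i := fun j hj => hb j (mem_insert_of_mem hj)
    have hab' : ∀ i ∈ S, b i ≤ a i := fun j hj => hab j (mem_insert_of_mem hj)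
    have ha' : ∀ i ∈ S, a i ≤ 1 := fun j hj => ha j (mem_insert_of_mem hj)
    have ih' := ih hb' hab' ha'
    have h2 : ∏ i ∈ S, a i ≤ 1 := prod_le_one (fun j hj => (hb' j hj).trans (hab' j hj)) ha'
    have h3 : ∏ i ∈ S, b i ≤ ∏ i ∈ S, a i := prod_le_prod hb' hab'
    have h4 := hb i (mem_insert_self _ _)
    have h5 := hab i (mem_insert_self _ _)
    have h6 := ha i (mem_insert_self _ _)
    have h7 : (a i - b i) * ∏ i ∈ S, a i ≤ (a i - b i) * 1 :=
      mul_le_mul_of_nonneg_left h2 (by linarith)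
    have h8 : b i * (∏ i ∈ S, a i - ∏ i ∈ S, b i) ≤ 1 * (∏ i ∈ S, a i - ∏ i ∈ S, b i) :=
      mul_le_mul_of_nonneg_right (by linarith) (by linarith)
    nlinarith

theorem avg_sub {d : ℕ} (q : ℕ) (f g : (Fin d → ℤ) → ℝ) :
    avg d q (fun ν => f ν - g ν) = avg d q f - avg d q g := by
  have h := avg_add (d := d) (q := q) f (fun ν => (-1) * g ν)
  rw [avg_smul] at h
  have h1 : (fun ν => f ν - g ν) = fun ν => f ν + (-1) * g ν := by
    funext ν
    ring
  rw [h1, h]
  ring

/-- the product of the weights of a window -/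
noncomputable def pr {d s : ℕ} (n : ℕ) (q : ℕ → ℕ) (x : ℕ → (Fin d → ℤ) → ℝ) (t : Fin s → ℝ) (k : ℕ)
    (ν : Fin d → ℤ) : ℝ := ∏ i : Fin s, Psi d n q x (t i) (x (k + i) ν)

/-- the weighted number of the windows -/
noncomputable def Wt {d s : ℕ} (n : ℕ) (q : ℕ → ℕ) (x : ℕ → (Fin d → ℤ) → ℝ) (K' : ℕ) (t : Fin s → ℝ)
    (ν : Fin d → ℤ) : ℝ := ∑ k ∈ range K', pr n q x t k ν

/-- its mean -/
noncomputable def Mt {d s : ℕ} (n : ℕ) (q : ℕ → ℕ) (x : ℕ → (Fin d → ℤ) → ℝ) (K' : ℕ)
    (t : Fin s → ℝ) : ℝ := ∑ k ∈ range K', avg d (wm q s k) (pr n q x t k)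

theorem Zt_eq {d s : ℕ} (n : ℕ) (q : ℕ → ℕ) (x : ℕ → (Fin d → ℤ) → ℝ) (K' : ℕ) (t : Fin s → ℝ)
    (ν : Fin d → ℤ) : Zt n q x K' t ν = Wt n q x K' t ν - Mt n q x K' t := by
  unfold Wt Mt
  rw [← sum_sub_distrib]
  rfl

section

variable {d s n : ℕ} {q : ℕ → ℕ} {x : ℕ → (Fin d → ℤ) → ℝ}

theorem wm_pos (hF : Fam d n q x) {k : ℕ} (hk : k + s ≤ n) : 1 ≤ wm q s k := by
  have h1 : 0 < wm q s k := by
    unfold Q285MD.wm
    refine prod_pos fun i hi => ?_
    rw [mem_Ico] at hi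
    exact hF.q1 i (by omega)
  exact h1

theorem per_one (hF : Fam d n q x) {k : ℕ} (hk : k < n) (φ : ℝ → ℝ) :
    ZPer (q k) (fun ν => φ (x k ν)) := by
  intro ν ν' h
  show φ (x k ν) = φ (x k ν')
  rw [hF.per k hk ν ν' h]

theorem dvd_wm {k i : ℕ} (hi : i < s) : q (k + i) ∣ wm q s k := by
  unfold Q285MD.wm
  exact dvd_prod_of_mem _ (by rw [mem_Ico]; omega)

theorem per_pr (hF : Fam d n q x) {k : ℕ} (hk : k + s ≤ n) (t : Fin s → ℝ) :
    ZPer (wm q s k) (pr n q x t k) := by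
  intro ν ν' h
  unfold pr
  refine prod_congr rfl fun i _ => ?_
  have h1 : x (k + i) ν = x (k + i) ν' := by
    refine hF.per (k + i) (by have := i.2; omega) ν ν' fun l => ?_
    exact (Int.natCast_dvd_natCast.2 (dvd_wm i.2)).trans (h l)
  rw [h1]

variable (hP1 : ∀ t y, 0 ≤ Psi d n q x t y ∧ Psi d n q x t y ≤ 1)
  (hP2 : ∀ t t' y, t ≤ t' → Psi d n q x t y ≤ Psi d n q x t' y)
  (hP4 : ∀ t, 0 ≤ t → t ≤ 1 →
      ∑ k ∈ range n, Q282LT.avg d (q k) (fun ν => Psi d n q x t (x k ν)) = n * t)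

include hP1 in
theorem pr_nonneg (t : Fin s → ℝ) (k : ℕ) (ν : Fin d → ℤ) : 0 ≤ pr n q x t k ν :=
  prod_nonneg fun _ _ => (hP1 _ _).1

include hP1 in
theorem pr_le_one (t : Fin s → ℝ) (k : ℕ) (ν : Fin d → ℤ) : pr n q x t k ν ≤ 1 :=
  prod_le_one (fun _ _ => (hP1 _ _).1) fun _ _ => (hP1 _ _).2

include hP1 hP2 in
theorem pr_mono {t t' : Fin s → ℝ} (h : ∀ i, t i ≤ t' i) (k : ℕ) (ν : Fin d → ℤ) :
    pr n q x t k ν ≤ pr n q x t' k ν :=
  prod_le_prod (fun _ _ => (hP1 _ _).1) fun i _ => hP2 _ _ _ (h i)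

include hP1 hP2 in
theorem pr_sub_le {t t' : Fin s → ℝ} (h : ∀ i, t i ≤ t' i) (k : ℕ) (ν : Fin d → ℤ) :
    pr n q x t' k ν - pr n q x t k ν ≤
      ∑ i : Fin s, (Psi d n q x (t' i) (x (k + i) ν) - Psi d n q x (t i) (x (k + i) ν)) :=
  prod_sub_le _ _ _ (fun _ _ => (hP1 _ _).1) (fun i _ => hP2 _ _ _ (h i)) fun _ _ => (hP1 _ _).2

include hP1 in
theorem avg_pr (hF : Fam d n q x) {k : ℕ} (hk : k + s ≤ n) (t : Fin s → ℝ) :
    0 ≤ avg d (wm q s k) (pr n q x t k) ∧ avg d (wm q s k) (pr n q x t k) ≤ 1 := by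
  have h0 := wm_pos hF hk
  constructor
  · have h1 := avg_mono (q := wm q s k) (f := fun _ => 0) (g := pr n q x t k)
      fun ν => pr_nonneg hP1 t k ν
    rwa [avg_const h0] at h1
  · have h1 := avg_mono (q := wm q s k) (f := pr n q x t k) (g := fun _ => 1)
      fun ν => pr_le_one hP1 t k ν
    rwa [avg_const h0] at h1

include hP1 hP2 hP4 in
/-- the mean is Lipschitz in the quantiles -/
theorem Mt_lip (hF : Fam d n q x) {K' : ℕ} (hK : K' + s ≤ n) {t t' : Fin s → ℝ}
    (h : ∀ i, t i ≤ t' i) (h0 : ∀ i, 0 ≤ t i) (h1 : ∀ i, t' i ≤ 1) :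
    Mt n q x K' t' - Mt n q x K' t ≤ n * ∑ i : Fin s, (t' i - t i) := by
  unfold Mt
  rw [← sum_sub_distrib]
  have h2 : ∀ k ∈ range K', avg d (wm q s k) (pr n q x t' k) - avg d (wm q s k) (pr n q x t k) ≤
      ∑ i : Fin s, avg d (q (k + i))
        (fun ν => Psi d n q x (t' i) (x (k + i) ν) - Psi d n q x (t i) (x (k + i) ν)) := by
    intro k hk
    rw [mem_range] at hk
    have hks : k + s ≤ n := by omega
    rw [← avg_sub]
    calc avg d (wm q s k) (fun ν => pr n q x t' k ν - pr n q x t k ν)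
        ≤ avg d (wm q s k) (fun ν => ∑ i : Fin s,
          (Psi d n q x (t' i) (x (k + i) ν) - Psi d n q x (t i) (x (k + i) ν))) :=
          avg_mono fun ν => pr_sub_le hP1 hP2 h k ν
      _ = ∑ i : Fin s, avg d (wm q s k)
          (fun ν => Psi d n q x (t' i) (x (k + i) ν) - Psi d n q x (t i) (x (k + i) ν)) :=
          avg_sum univ (wm q s k) (fun (i : Fin s) ν =>
            Psi d n q x (t' i) (x (k + i) ν) - Psi d n q x (t i) (x (k + i) ν))
      _ = _ := by
          refine sum_congr rfl fun i _ => ?_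
          exact avg_dvd (wm_pos hF hks) (dvd_wm i.2)
            (per_one hF (by have := i.2; omega)
              (fun y => Psi d n q x (t' i) y - Psi d n q x (t i) y))
  refine (sum_le_sum h2).trans ?_
  rw [sum_comm, mul_sum]
  refine sum_le_sum fun i _ => ?_
  have hi := i.2
  -- the terms are nonnegative
  have h3 : ∀ k ∈ range n, 0 ≤ avg d (q k)
      (fun ν => Psi d n q x (t' i) (x k ν) - Psi d n q x (t i) (x k ν)) := by
    intro k hk
    have h4 := avg_mono (d := d) (q := q k) (f := fun _ => 0)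
      (g := fun ν => Psi d n q x (t' i) (x k ν) - Psi d n q x (t i) (x k ν))
      fun ν => sub_nonneg.2 (hP2 _ _ _ (h i))
    rwa [avg_const (hF.q1 k (mem_range.1 hk))] at h4
  calc ∑ k ∈ range K', avg d (q (k + i))
        (fun ν => Psi d n q x (t' i) (x (k + i) ν) - Psi d n q x (t i) (x (k + i) ν))
      = ∑ k ∈ (range K').image (fun k => k + (i : ℕ)), avg d (q k)
        (fun ν => Psi d n q x (t' i) (x k ν) - Psi d n q x (t i) (x k ν)) := by
        rw [sum_image]
        intro a _ b _ hab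
        simpa using hab
    _ ≤ ∑ k ∈ range n, avg d (q k)
        (fun ν => Psi d n q x (t' i) (x k ν) - Psi d n q x (t i) (x k ν)) := by
        refine sum_le_sum_of_subset_of_nonneg ?_ fun k hk _ => h3 k hk
        intro k hk
        rw [mem_image] at hk
        obtain ⟨k', hk', rfl⟩ := hk
        rw [mem_range] at hk' ⊢
        omega
    _ = n * (t' i - t i) := by
        have h5 : ∀ k ∈ range n, avg d (q k)
            (fun ν => Psi d n q x (t' i) (x k ν) - Psi d n q x (t i) (x k ν)) =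
            avg d (q k) (fun ν => Psi d n q x (t' i) (x k ν)) -
              avg d (q k) (fun ν => Psi d n q x (t i) (x k ν)) := fun k _ => avg_sub _ _ _
        rw [sum_congr rfl h5, sum_sub_distrib, hP4 _ ((h0 i).trans (h i)) (h1 i),
          hP4 _ (h0 i) ((h i).trans (h1 i))]
        ring

include hP1 hP2 hP4 in
theorem Mt_inc (hF : Fam d n q x) {K' K'' : ℕ} (hKK : K' ≤ K'') (hK : K'' + s ≤ n)
    {t t' : Fin s → ℝ} (h : ∀ i, t i ≤ t' i) (h0 : ∀ i, 0 ≤ t i) (h1 : ∀ i, t' i ≤ 1) :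
    Mt n q x K'' t' - Mt n q x K' t ≤ n * ∑ i : Fin s, (t' i - t i) + ((K'' : ℝ) - K') := by
  have h2 := Mt_lip hP1 hP2 hP4 hF (K' := K') (by omega) h h0 h1
  have h3 : Mt n q x K'' t' - Mt n q x K' t' ≤ (K'' : ℝ) - K' := by
    unfold Mt
    rw [← sum_Ico_eq_sub _ hKK]
    calc ∑ k ∈ Ico K' K'', avg d (wm q s k) (pr n q x t' k) ≤ ∑ k ∈ Ico K' K'', (1 : ℝ) := by
          refine sum_le_sum fun k hk => ?_
          rw [mem_Ico] at hk
          exact (avg_pr hP1 hF (by omega) t').2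
      _ = (K'' : ℝ) - K' := by
          rw [sum_const, Nat.card_Ico, nsmul_eq_mul, mul_one, Nat.cast_sub hKK]
  linarith

include hP1 hP2 in
theorem Mt_mono (hF : Fam d n q x) {K' K'' : ℕ} (hKK : K' ≤ K'') (hK : K'' + s ≤ n)
    {t t' : Fin s → ℝ} (h : ∀ i, t i ≤ t' i) : Mt n q x K' t ≤ Mt n q x K'' t' := by
  unfold Mt
  calc ∑ k ∈ range K', avg d (wm q s k) (pr n q x t k)
      ≤ ∑ k ∈ range K', avg d (wm q s k) (pr n q x t' k) :=
        sum_le_sum fun k _ => avg_mono fun ν => pr_mono hP1 hP2 h k ν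
    _ ≤ _ := by
        refine sum_le_sum_of_subset_of_nonneg (range_subset_range.2 hKK) fun k hk _ => ?_
        rw [mem_range] at hk
        exact (avg_pr hP1 hF (by omega) t').1

include hP1 hP2 in
theorem Wt_mono {K' K'' : ℕ} (hKK : K' ≤ K'') {t t' : Fin s → ℝ} (h : ∀ i, t i ≤ t' i)
    (ν : Fin d → ℤ) : Wt n q x K' t ν ≤ Wt n q x K'' t' ν := by
  unfold Wt
  calc ∑ k ∈ range K', pr n q x t k ν ≤ ∑ k ∈ range K', pr n q x t' k ν :=
        sum_le_sum fun k _ => pr_mono hP1 hP2 h k ν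
    _ ≤ _ := sum_le_sum_of_subset_of_nonneg (range_subset_range.2 hKK)
        fun k _ _ => pr_nonneg hP1 t' k ν

/-- the functions of an increment -/
noncomputable def gi {d s : ℕ} (n : ℕ) (q : ℕ → ℕ) (x : ℕ → (Fin d → ℤ) → ℝ) (K' K'' : ℕ)
    (t t' : Fin s → ℝ) (k : ℕ) (ν : Fin d → ℤ) : ℝ :=
  (if k < K'' then pr n q x t' k ν else 0) - (if k < K' then pr n q x t k ν else 0)

theorem avg_ite {q' : ℕ} (hq : 1 ≤ q') (c : Prop) [Decidable c] (f : (Fin d → ℤ) → ℝ) :
    avg d q' (fun ν => if c then f ν else 0) = if c then avg d q' f else 0 := by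
  by_cases h : c
  · simp [h]
  · simp only [h, if_false]
    exact avg_const hq 0

include hP1 hP2 in
theorem gi_bd {K' K'' : ℕ} (hKK : K' ≤ K'') {t t' : Fin s → ℝ} (h : ∀ i, t i ≤ t' i) (k : ℕ)
    (ν : Fin d → ℤ) : 0 ≤ gi n q x K' K'' t t' k ν ∧ gi n q x K' K'' t t' k ν ≤ 1 := by
  have h1 := pr_nonneg hP1 t k ν
  have h2 := pr_le_one hP1 t' k ν
  have h3 := pr_mono hP1 hP2 h k ν
  unfold gi
  split_ifs with a b
  · exact ⟨by linarith, by linarith⟩
  · exact ⟨by linarith, by linarith⟩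
  · omega
  · exact ⟨by linarith, by linarith⟩

theorem sum_ite_range {M K : ℕ} (hM : M ≤ K) (f : ℕ → ℝ) :
    ∑ k ∈ range K, (if k < M then f k else 0) = ∑ k ∈ range M, f k := by
  rw [← sum_filter]
  congr 1
  ext k
  rw [mem_filter, mem_range, mem_range]
  omega

theorem avg_gi {K' K'' : ℕ} {t t' : Fin s → ℝ} {k : ℕ} (hw : 1 ≤ wm q s k) :
    avg d (wm q s k) (gi n q x K' K'' t t' k) =
      (if k < K'' then avg d (wm q s k) (pr n q x t' k) else 0) -
        (if k < K' then avg d (wm q s k) (pr n q x t k) else 0) := by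
  unfold gi
  rw [avg_sub, avg_ite hw, avg_ite hw]

include hP1 hP2 hP4 in
/-- the moment of an increment -/
theorem mom_inc {r K : ℕ} {C C₀ : ℝ} {A : ℕ} (hn : n = K + s) (hF : Fam d n q x)
    (hM : ∀ (d K : ℕ) (q : ℕ → ℕ) (g : ℕ → (Fin d → ℤ) → ℝ), Dat d s K q g →
      (∀ k < K, ∀ ν, 0 ≤ g k ν) →
      ∀ Y : ℕ, (∀ i < K + s, q i ≤ Y) → K ≤ Y → ∀ (m : Fin d → ℤ) (L : Fin d → ℕ),
        (∀ i, C₀ * (d + 1) * (Y : ℝ) ^ A ≤ L i) →
        ∑ ν ∈ zbox m L, (∑ k ∈ range K, G s q g k ν) ^ (2 * r) ≤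
          (∏ i, (L i : ℝ)) *
            (C * (1 + ∑ k ∈ range K, avg d (wm q s k) (g k)) ^ r))
    (hC : 0 < C) {Y : ℕ} (hY : ∀ i < K + s, q i ≤ Y) (hKY : K ≤ Y) (m : Fin d → ℤ)
    (L : Fin d → ℕ) (hL : ∀ i, C₀ * (d + 1) * (Y : ℝ) ^ A ≤ L i)
    {K' K'' : ℕ} (hKK : K' ≤ K'') (hK : K'' ≤ K)
    {t t' : Fin s → ℝ} (h : ∀ i, t i ≤ t' i) (h0 : ∀ i, 0 ≤ t i) (h1 : ∀ i, t' i ≤ 1) (B : ℝ)
    (hB : n * ∑ i : Fin s, (t' i - t i) + ((K'' : ℝ) - K') ≤ B) :
    ∑ ν ∈ zbox m L, (Zt n q x K'' t' ν - Zt n q x K' t ν) ^ (2 * r) ≤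
      (∏ i, (L i : ℝ)) * (C * (1 + B) ^ r) := by
  subst hn
  have hD : Dat d s K q (gi (K + s) q x K' K'' t t') := by
    refine ⟨hF.q1, hF.cop, ?_, ?_⟩
    · intro k hk ν ν' hν
      unfold gi
      rw [per_pr hF (by omega) t ν ν' hν, per_pr hF (by omega) t' ν ν' hν]
    · intro k _ ν
      have := gi_bd hP1 hP2 hKK h k ν
      rw [abs_le]
      exact ⟨by linarith, this.2⟩
  have h2 := hM d K q (gi (K + s) q x K' K'' t t') hD
    (fun k _ ν => (gi_bd hP1 hP2 hKK h k ν).1) Y hY hKY m L hL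
  have h3 : ∀ ν, ∑ k ∈ range K, G s q (gi (K + s) q x K' K'' t t') k ν =
      Zt (K + s) q x K'' t' ν - Zt (K + s) q x K' t ν := by
    intro ν
    rw [Zt_eq, Zt_eq]
    have h4 : ∀ k ∈ range K, G s q (gi (K + s) q x K' K'' t t') k ν =
        ((if k < K'' then pr (K + s) q x t' k ν else 0) -
          (if k < K' then pr (K + s) q x t k ν else 0)) -
        ((if k < K'' then avg d (wm q s k) (pr (K + s) q x t' k) else 0) -
          (if k < K' then avg d (wm q s k) (pr (K + s) q x t k) else 0)) := by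
      intro k hk
      rw [mem_range] at hk
      unfold Q285MD.G
      rw [avg_gi (wm_pos hF (by omega))]
      rfl
    rw [sum_congr rfl h4, sum_sub_distrib, sum_sub_distrib, sum_sub_distrib,
      sum_ite_range hK, sum_ite_range (hKK.trans hK), sum_ite_range hK,
      sum_ite_range (hKK.trans hK)]
    unfold Wt Mt
    ring
  have h5 : ∑ k ∈ range K, avg d (wm q s k) (gi (K + s) q x K' K'' t t' k) =
      Mt (K + s) q x K'' t' - Mt (K + s) q x K' t := by
    have h6 : ∀ k ∈ range K, avg d (wm q s k) (gi (K + s) q x K' K'' t t' k) =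
        (if k < K'' then avg d (wm q s k) (pr (K + s) q x t' k) else 0) -
          (if k < K' then avg d (wm q s k) (pr (K + s) q x t k) else 0) := by
      intro k hk
      rw [mem_range] at hk
      exact avg_gi (wm_pos hF (by omega))
    rw [sum_congr rfl h6, sum_sub_distrib, sum_ite_range hK, sum_ite_range (hKK.trans hK)]
    rfl
  rw [sum_congr rfl (fun ν _ => by rw [h3 ν]), h5] at h2
  refine h2.trans ?_
  have h7 := Mt_inc hP1 hP2 hP4 hF hKK (by omega) h h0 h1
  have h8 := Mt_mono hP1 hP2 hF hKK (by omega) h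
  refine mul_le_mul_of_nonneg_left ?_ (prod_nonneg fun _ _ => Nat.cast_nonneg _)
  refine mul_le_mul_of_nonneg_left ?_ hC.le
  refine pow_le_pow_left₀ (by linarith) (by linarith) r

end

/-! ### the grid -/

/-- the quantiles of a grid point -/
noncomputable def tt {s : ℕ} (J : ℕ) (i : Fin (s + 1) → ℕ) (l : Fin s) : ℝ :=
  (i l.castSucc : ℝ) / 2 ^ J

/-- the length of a grid point -/
def kk {s : ℕ} (K J : ℕ) (i : Fin (s + 1) → ℕ) : ℕ := min K (K * i (Fin.last s) / 2 ^ J)

theorem nat_div_bounds (a b : ℕ) (hb : 0 < b) : ((a / b : ℕ) : ℝ) ≤ (a : ℝ) / b ∧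
    (a : ℝ) / b - 1 ≤ ((a / b : ℕ) : ℝ) := by
  have hb' : (0 : ℝ) < b := by exact_mod_cast hb
  constructor
  · exact Nat.cast_div_le
  · have h1 : a < (a / b + 1) * b := by
      have := Nat.div_add_mod a b
      have := Nat.mod_lt a hb
      nlinarith
    have h2 : (a : ℝ) < (((a / b : ℕ) : ℝ) + 1) * b := by exact_mod_cast h1
    have h3 : (a : ℝ) / b < ((a / b : ℕ) : ℝ) + 1 := by
      rw [div_lt_iff₀ hb']
      exact h2
    linarith

theorem kk_sub {s : ℕ} (K J : ℕ) (i i' : Fin (s + 1) → ℕ)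
    (h : i (Fin.last s) ≤ i' (Fin.last s)) (h' : i' (Fin.last s) ≤ 2 ^ J) :
    kk K J i ≤ kk K J i' ∧
    ((kk K J i' : ℕ) : ℝ) - kk K J i ≤
      (K : ℝ) * ((i' (Fin.last s) : ℝ) - i (Fin.last s)) / 2 ^ J + 1 := by
  have h2 : (0 : ℕ) < 2 ^ J := by positivity
  have e1 : ∀ a : ℕ, a ≤ 2 ^ J → K * a / 2 ^ J ≤ K := by
    intro a ha
    apply Nat.div_le_of_le_mul
    rw [mul_comm (2 ^ J) K]
    exact Nat.mul_le_mul_left K ha
  unfold kk
  rw [min_eq_right (e1 _ h'), min_eq_right (e1 _ (h.trans h'))]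
  constructor
  · exact Nat.div_le_div_right (Nat.mul_le_mul_left K h)
  · have b1 := (nat_div_bounds (K * i' (Fin.last s)) (2 ^ J) h2).1
    have b2 := (nat_div_bounds (K * i (Fin.last s)) (2 ^ J) h2).2
    push_cast at b1 b2
    have e2 : (K : ℝ) * ((i' (Fin.last s) : ℝ) - i (Fin.last s)) / 2 ^ J =
        (K : ℝ) * (i' (Fin.last s) : ℝ) / 2 ^ J - (K : ℝ) * (i (Fin.last s) : ℝ) / 2 ^ J := by
      ring
    rw [e2]
    linarith

theorem tt_bd {s : ℕ} (J : ℕ) (i : Fin (s + 1) → ℕ) (h : ∀ l, i l ≤ 2 ^ J) (l : Fin s) :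
    0 ≤ tt J i l ∧ tt J i l ≤ 1 := by
  unfold tt
  constructor
  · positivity
  · rw [div_le_one (by positivity)]
    exact_mod_cast h _

/-- the increments along an edge -/
theorem edge {s : ℕ} (K J j : ℕ) (hj : j ≤ J) (l : Fin (s + 1)) (i : Fin (s + 1) → ℕ)
    (hi : ∀ l', i l' ≤ 2 ^ J) (hil : i l + 2 ^ (J - j) ≤ 2 ^ J) :
    (∀ l' : Fin s, tt J i l' ≤ tt J (Function.update i l (i l + 2 ^ (J - j))) l') ∧
    (∀ l' : Fin s, tt J (Function.update i l (i l + 2 ^ (J - j))) l' ≤ 1) ∧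
    kk K J i ≤ kk K J (Function.update i l (i l + 2 ^ (J - j))) ∧
    ∀ n : ℕ, K ≤ n → (n : ℝ) * ∑ l' : Fin s,
        (tt J (Function.update i l (i l + 2 ^ (J - j))) l' - tt J i l') +
      ((kk K J (Function.update i l (i l + 2 ^ (J - j))) : ℝ) - kk K J i) ≤ n / 2 ^ j + 1 := by
  have hup : ∀ l', Function.update i l (i l + 2 ^ (J - j)) l' ≤ 2 ^ J := by
    intro l'
    by_cases h : l' = l
    · subst h
      rw [Function.update_self]
      exact hil
    · rw [Function.update_of_ne h]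
      exact hi l'
  have hle : ∀ l', i l' ≤ Function.update i l (i l + 2 ^ (J - j)) l' := by
    intro l'
    by_cases h : l' = l
    · subst h
      rw [Function.update_self]
      exact Nat.le_add_right _ _
    · rw [Function.update_of_ne h]
  have hpow : ((2 : ℝ) ^ (J - j)) / 2 ^ J = 1 / 2 ^ j := by
    rw [div_eq_div_iff (by positivity) (by positivity), one_mul, ← pow_add]
    congr 1
    omega
  refine ⟨?_, ?_, (kk_sub K J _ _ (hle _) (hup _)).1, ?_⟩
  · intro l'
    unfold tt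
    have : ((i l'.castSucc : ℕ) : ℝ) ≤
        (Function.update i l (i l + 2 ^ (J - j)) l'.castSucc : ℕ) := by
      exact_mod_cast hle _
    gcongr
  · intro l'
    exact (tt_bd J _ hup l').2
  · intro n hn
    have hn' : (K : ℝ) ≤ n := by exact_mod_cast hn
    rcases Fin.eq_castSucc_or_eq_last l with ⟨l0, rfl⟩ | rfl
    · -- direction of a quantile
      have e1 : ∑ l' : Fin s, (tt J (Function.update i l0.castSucc
          (i l0.castSucc + 2 ^ (J - j))) l' - tt J i l') = 1 / 2 ^ j := by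
        rw [Finset.sum_eq_single l0]
        · unfold tt
          rw [Function.update_self]
          push_cast
          rw [← hpow]
          ring
        · intro l' _ hne
          unfold tt
          rw [Function.update_of_ne (fun h => hne (Fin.castSucc_injective s h))]
          ring
        · intro h
          exact absurd (mem_univ _) h
      have e2 : kk K J (Function.update i l0.castSucc (i l0.castSucc + 2 ^ (J - j))) =
          kk K J i := by
        unfold kk
        rw [Function.update_of_ne (Fin.castSucc_lt_last l0).ne']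
      rw [e1, e2, sub_self, add_zero]
      have : (n : ℝ) * (1 / 2 ^ j) = n / 2 ^ j := by ring
      rw [this]
      linarith
    · -- direction of the length
      have e1 : ∑ l' : Fin s, (tt J (Function.update i (Fin.last s)
          (i (Fin.last s) + 2 ^ (J - j))) l' - tt J i l') = 0 := by
        apply Finset.sum_eq_zero
        intro l' _
        unfold tt
        rw [Function.update_of_ne (Fin.castSucc_lt_last l').ne]
        ring
      have e2 := (kk_sub K J i (Function.update i (Fin.last s)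
        (i (Fin.last s) + 2 ^ (J - j))) (hle _) (hup _)).2
      rw [e1, mul_zero, zero_add]
      refine e2.trans ?_
      rw [Function.update_self]
      push_cast
      have e3 : (K : ℝ) * ((i (Fin.last s) : ℝ) + 2 ^ (J - j) - i (Fin.last s)) / 2 ^ J =
          K / 2 ^ j := by
        have : (K : ℝ) * ((i (Fin.last s) : ℝ) + 2 ^ (J - j) - i (Fin.last s)) / 2 ^ J =
          K * ((2 : ℝ) ^ (J - j) / 2 ^ J) := by ring
        rw [this, hpow]
        ring
      rw [e3]
      gcongr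

/-! ### the theorem -/

theorem t_CORNER (hMOM : S_MOM) (hCHAIN : S_CHAIN) (hPSI : S_PSI) : S_CORNER := by
  intro s r hr
  obtain ⟨C, C₀, A, hC, hC₀, hM⟩ := hMOM s r
  obtain ⟨C₂, hC₂, hCh⟩ := hCHAIN (s + 1) r (C * 3 ^ r) (by omega) hr (by positivity)
  set κ : ℝ := 4 * s + 6 with hκ
  have hκ0 : 0 < κ := by positivity
  refine ⟨C₂ * 2 ^ (2 * r) + κ ^ (2 * r), C₀, A, by positivity, hC₀, ?_⟩
  intro d K q x hK hF Y hY hKY m L hL lam hlam
  have hP0 : (0 : ℝ) ≤ ∏ i, (L i : ℝ) := prod_nonneg fun _ _ => Nat.cast_nonneg _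
  have hcard : ((zbox m L).card : ℝ) = ∏ i, (L i : ℝ) := by
    rw [card_zbox]
    push_cast
    rfl
  have hlam0 : 0 < lam := by linarith
  rcases lt_or_ge lam κ with hlk | hlk
  · -- trivial case
    refine ⟨zbox m L, Finset.Subset.refl _, ?_, ?_⟩
    · rw [hcard]
      have h1 : 1 ≤ (C₂ * 2 ^ (2 * r) + κ ^ (2 * r)) / lam ^ (2 * r) := by
        rw [one_le_div (by positivity)]
        have : lam ^ (2 * r) ≤ κ ^ (2 * r) := pow_le_pow_left₀ hlam0.le hlk.le _
        have : 0 ≤ C₂ * 2 ^ (2 * r) := by positivity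
        linarith
      nlinarith
    · intro ν hν hν'
      exact absurd hν hν'
  -- main case
  set n : ℕ := K + s with hn
  have hn0 : 0 < n := by omega
  obtain ⟨hP1, hP2, hP3, hP4, -, -⟩ := hPSI d n q x hn0 hF.q1 hF.per
  have hnr : (1 : ℝ) ≤ n := by exact_mod_cast hn0
  set R : ℕ := Nat.sqrt n with hR
  have hR0 : 0 < R := Nat.sqrt_pos.2 hn0
  set J : ℕ := Nat.log 2 R with hJ
  have hJ1 : 2 ^ J ≤ R := Nat.pow_log_le_self 2 (by omega)
  have hJ2 : R < 2 ^ (J + 1) := Nat.lt_pow_succ_log_self (by norm_num) R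
  have hs1 : (R : ℝ) ≤ √n := Real.nat_sqrt_le_real_sqrt
  have hs2 : √n ≤ (2 : ℝ) ^ (J + 1) := by
    have h1 : √(n : ℝ) ≤ (R : ℝ) + 1 := Real.real_sqrt_le_nat_sqrt_succ
    have h2 : ((R + 1 : ℕ) : ℝ) ≤ ((2 ^ (J + 1) : ℕ) : ℝ) := by exact_mod_cast hJ2
    push_cast at h2
    linarith
  have hsq : √(n : ℝ) * √n = n := Real.mul_self_sqrt (by positivity)
  have hs3 : 1 ≤ √(n : ℝ) := Real.one_le_sqrt.2 hnr
  have hJn : ((2 : ℝ) ^ J) ≤ n := by
    have h1 : ((2 ^ J : ℕ) : ℝ) ≤ R := by exact_mod_cast hJ1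
    push_cast at h1
    nlinarith
  have hJs : (n : ℝ) / 2 ^ J ≤ 2 * √n := by
    rw [div_le_iff₀ (by positivity)]
    have h1 : (2 : ℝ) ^ (J + 1) = 2 * 2 ^ J := by ring
    rw [h1] at hs2
    nlinarith
  set Z : (Fin d → ℤ) → (Fin (s + 1) → ℕ) → ℝ := fun ν i => Zt n q x (kk K J i) (tt J i) ν with hZ
  have hkk : ∀ i : Fin (s + 1) → ℕ, kk K J i ≤ K := fun i => min_le_left _ _
  obtain ⟨T, hT1, hT2, hT3⟩ := hCh (Fin d → ℤ) (zbox m L) J n Z (by linarith) (by
    -- zero on the faces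
    intro ν _ i hi
    obtain ⟨l, hl⟩ := hi
    rw [hZ]
    simp only
    rcases Fin.eq_castSucc_or_eq_last l with ⟨l0, rfl⟩ | rfl
    · have ht0 : tt J i l0 = 0 := by
        unfold tt
        rw [hl]
        simp
      have hz : ∀ k < K, ∀ ν', pr n q x (tt J i) k ν' = 0 := by
        intro k hk ν'
        unfold pr
        apply Finset.prod_eq_zero (mem_univ l0)
        rw [ht0]
        exact (hP3 (k + l0) (by have := l0.2; omega) ν').1
      rw [Zt_eq]
      unfold Wt Mt
      have z1 : ∑ k ∈ range (kk K J i), pr n q x (tt J i) k ν = 0 := by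
        apply Finset.sum_eq_zero
        intro k hk
        rw [mem_range] at hk
        exact hz k (lt_of_lt_of_le hk (hkk i)) ν
      have z2 : ∑ k ∈ range (kk K J i), avg d (wm q s k) (pr n q x (tt J i) k) = 0 := by
        apply Finset.sum_eq_zero
        intro k hk
        rw [mem_range] at hk
        have hk' := lt_of_lt_of_le hk (hkk i)
        have : pr n q x (tt J i) k = fun _ => 0 := by
          funext ν'
          exact hz k hk' ν'
        rw [this]
        exact avg_const (wm_pos hF (by omega)) 0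
      rw [z1, z2, sub_zero]
    · have : kk K J i = 0 := by
        unfold kk
        rw [hl, mul_zero, Nat.zero_div]
        exact min_eq_right (Nat.zero_le _)
      rw [this]
      unfold Zt
      simp) (by
    -- moments of the increments
    intro j hj l i _ hi hil
    obtain ⟨e1, e2, e3, e4⟩ := edge K J j hj l i hi hil
    have e5 := e4 n (by omega)
    have h1 := mom_inc hP1 hP2 hP4 rfl hF hM hC hY hKY m L hL e3 (hkk _) e1
      (fun l' => (tt_bd J i hi l').1) e2 _ e5
    have h2 : (1 : ℝ) ≤ n / 2 ^ j := by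
      rw [one_le_div (by positivity)]
      have : (2 : ℝ) ^ j ≤ 2 ^ J := pow_le_pow_right₀ (by norm_num) hj
      linarith
    rw [hcard]
    refine h1.trans ?_
    refine mul_le_mul_of_nonneg_left ?_ hP0
    have h3 : C * (1 + ((n : ℝ) / 2 ^ j + 1)) ^ r ≤ C * (3 * ((n : ℝ) / 2 ^ j)) ^ r := by
      refine mul_le_mul_of_nonneg_left ?_ hC.le
      exact pow_le_pow_left₀ (by positivity) (by linarith) r
    refine h3.trans (le_of_eq ?_)
    rw [mul_pow]
    ring) (lam / 2) (by positivity)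
  refine ⟨T, hT1, ?_, ?_⟩
  · refine hT2.trans ?_
    rw [hcard]
    have h1 : C₂ * (∏ i, (L i : ℝ)) / (lam / 2) ^ (2 * r) =
        C₂ * 2 ^ (2 * r) / lam ^ (2 * r) * ∏ i, (L i : ℝ) := by
      rw [div_pow]
      field_simp
    rw [h1]
    refine mul_le_mul_of_nonneg_right ?_ hP0
    gcongr
    have : 0 ≤ κ ^ (2 * r) := by positivity
    linarith
  · intro ν hν hνT K' hK' t ht
    have hK0 : (0 : ℝ) < K := by exact_mod_cast hK
    -- the neighbouring grid points
    set u : Fin (s + 1) → ℝ := Fin.snoc (α := fun _ => ℝ) t ((K' : ℝ) / K) with hu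
    have hu0 : ∀ l, 0 ≤ u l ∧ u l ≤ 1 := by
      intro l
      rcases Fin.eq_castSucc_or_eq_last l with ⟨l0, rfl⟩ | rfl
      · rw [hu, Fin.snoc_castSucc]
        exact ht l0
      · rw [hu, Fin.snoc_last]
        have : (K' : ℝ) ≤ K := by exact_mod_cast hK'
        exact ⟨by positivity, (div_le_one hK0).2 this⟩
    set a : Fin (s + 1) → ℕ := fun l => ⌊u l * 2 ^ J⌋₊ with ha
    set b : Fin (s + 1) → ℕ := fun l => ⌈u l * 2 ^ J⌉₊ with hb
    have h2J : (0 : ℝ) < 2 ^ J := by positivity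
    have hab : ∀ l, (a l : ℝ) ≤ u l * 2 ^ J ∧ u l * 2 ^ J ≤ b l ∧ (b l : ℝ) ≤ a l + 1 ∧
        b l ≤ 2 ^ J := by
      intro l
      have h0 := (hu0 l).1
      refine ⟨Nat.floor_le (by positivity), Nat.le_ceil _, ?_, ?_⟩
      · exact_mod_cast Nat.ceil_le_floor_add_one _
      · apply Nat.ceil_le.2
        push_cast
        nlinarith [(hu0 l).2]
    have hal : ∀ l, a l ≤ b l := by
      intro l
      have h1 := (hab l).1
      have h2 := (hab l).2.1
      exact_mod_cast h1.trans h2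
    have hal2 : ∀ l, a l ≤ 2 ^ J := fun l => (hal l).trans (hab l).2.2.2
    have hta : ∀ l, tt J a l ≤ t l := by
      intro l
      have h1 := (hab l.castSucc).1
      have h2 : u l.castSucc = t l := by rw [hu, Fin.snoc_castSucc]
      unfold tt
      rw [div_le_iff₀ h2J, ← h2]
      exact h1
    have htb : ∀ l, t l ≤ tt J b l := by
      intro l
      have h1 := (hab l.castSucc).2.1
      have h2 : u l.castSucc = t l := by rw [hu, Fin.snoc_castSucc]
      unfold tt
      rw [le_div_iff₀ h2J, ← h2]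
      exact h1
    have hul : u (Fin.last s) = (K' : ℝ) / K := by rw [hu, Fin.snoc_last]
    have hka : kk K J a ≤ K' := by
      unfold kk
      refine (min_le_right _ _).trans ?_
      apply Nat.div_le_of_le_mul
      have h1 := (hab (Fin.last s)).1
      rw [hul] at h1
      have h2 : (K : ℝ) * (a (Fin.last s) : ℝ) ≤ 2 ^ J * K' := by
        have h3 := mul_le_mul_of_nonneg_left h1 hK0.le
        have h4 : (K : ℝ) * ((K' : ℝ) / K * 2 ^ J) = 2 ^ J * K' := by
          field_simp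
        linarith
      exact_mod_cast h2
    have hkb : K' ≤ kk K J b := by
      unfold kk
      refine le_min hK' ?_
      rw [Nat.le_div_iff_mul_le (by positivity)]
      have h1 := (hab (Fin.last s)).2.1
      rw [hul] at h1
      have h2 : (K' : ℝ) * 2 ^ J ≤ K * (b (Fin.last s) : ℝ) := by
        have h3 := mul_le_mul_of_nonneg_left h1 hK0.le
        have h4 : (K : ℝ) * ((K' : ℝ) / K * 2 ^ J) = K' * 2 ^ J := by
          field_simp
        linarith
      exact_mod_cast h2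
    have hMab : Mt n q x (kk K J b) (tt J b) - Mt n q x (kk K J a) (tt J a) ≤ (2 * s + 3) * √n := by
      have h1 := Mt_inc hP1 hP2 hP4 hF (hka.trans hkb)
        (by have := hkk b; omega) (fun l => (hta l).trans (htb l))
        (fun l => (tt_bd J a hal2 l).1) (fun l => (tt_bd J b (fun l => (hab l).2.2.2) l).2)
      have h2 : ∑ l : Fin s, (tt J b l - tt J a l) ≤ s / 2 ^ J := by
        have h3 : ∀ l ∈ (univ : Finset (Fin s)), tt J b l - tt J a l ≤ 1 / 2 ^ J := by
          intro l _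
          unfold tt
          rw [← sub_div]
          have := (hab l.castSucc).2.2.1
          gcongr
          linarith
        refine (sum_le_sum h3).trans (le_of_eq ?_)
        rw [sum_const, card_univ, Fintype.card_fin, nsmul_eq_mul]
        ring
      have h4 := (kk_sub K J a b (hal _) (hab _).2.2.2).2
      have h5 : (K : ℝ) * ((b (Fin.last s) : ℝ) - a (Fin.last s)) / 2 ^ J ≤ n / 2 ^ J := by
        have h6 := (hab (Fin.last s)).2.2.1
        have h7 : (K : ℝ) ≤ n := by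
          rw [hn]
          push_cast
          have : (0 : ℝ) ≤ s := by positivity
          linarith
        gcongr
        nlinarith
      have h8 : (n : ℝ) * ∑ l : Fin s, (tt J b l - tt J a l) ≤ s * (n / 2 ^ J) := by
        calc (n : ℝ) * ∑ l : Fin s, (tt J b l - tt J a l) ≤ n * (s / 2 ^ J) :=
              mul_le_mul_of_nonneg_left h2 (by positivity)
          _ = s * (n / 2 ^ J) := by ring
      have h9 : (s : ℝ) * (n / 2 ^ J) ≤ s * (2 * √n) :=
        mul_le_mul_of_nonneg_left hJs (by positivity)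
      linarith
    have hgb := hT3 ν hν hνT b (fun l => (hab l).2.2.2)
    have hga := hT3 ν hν hνT a hal2
    rw [hZ] at hgb hga
    simp only at hgb hga
    rw [Zt_eq] at hgb hga ⊢
    rw [abs_le] at hgb hga ⊢
    have w1 := Wt_mono (n := n) (q := q) (x := x) hP1 hP2 hka hta ν
    have w2 := Wt_mono (n := n) (q := q) (x := x) hP1 hP2 hkb htb ν
    have m1 := Mt_mono hP1 hP2 hF hka (by omega) hta
    have m2 := Mt_mono hP1 hP2 hF hkb (by have := hkk b; omega) htb
    have f1 : (2 * (s : ℝ) + 3) * √n ≤ lam / 2 * √n := by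
      refine mul_le_mul_of_nonneg_right ?_ (by positivity)
      rw [hκ] at hlk
      linarith
    have f2 : lam * √(n : ℝ) = lam / 2 * √n + lam / 2 * √n := by ring
    have f3 : (√((K : ℝ) + s)) = √(n : ℝ) := by
      rw [hn]
      push_cast
      rfl
    rw [f3, f2]
    constructor <;> linarith

end Pool.Agent.Q184.EB
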